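import Pool.Agent.Helper18.KSZ.NSpec
import Pool.Agent.Helper44.Bonferroni

/-!
KSZ-N1a: the algebra of the Brun-Hooley weights.
-/

set_option autoImplicit false

open Finset

namespace Pool.Agent.Helper85.KSZ

open Pool.Agent.Helper18.KSZ
open Pool.Agent.Helper44 (nb zs tr)
open Pool.Agent.Helper96.CPAP (pb pU mem_pb mem_pU pb_disjoint biUnion_pb)

/-- splitting a sum over subsets of a disjoint union -/
theorem sum_powerset_split (S B : Finset ℕ) (f : Finset ℕ → ℝ) :
    ∑ s ∈ S.powerset, f s =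
      ∑ t ∈ (S ∩ B).powerset, ∑ u ∈ (S \ B).powerset, f (u ∪ t) := by
  rw [← Finset.sum_product']
  symm
  refine Finset.sum_nbij' (fun x => x.2 ∪ x.1) (fun s => (s ∩ B, s \ B)) ?_ ?_ ?_ ?_ ?_
  · rintro ⟨t, u⟩ h
    rw [Finset.mem_product, Finset.mem_powerset, Finset.mem_powerset] at h
    rw [Finset.mem_powerset]
    exact Finset.union_subset (h.2.trans Finset.sdiff_subset) (h.1.trans Finset.inter_subset_left)
  · intro s hs
    rw [Finset.mem_powerset] at hs
    rw [Finset.mem_product, Finset.mem_powerset, Finset.mem_powerset]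
    exact ⟨Finset.inter_subset_inter_right hs, Finset.sdiff_subset_sdiff hs (Finset.Subset.refl _)⟩
  · rintro ⟨t, u⟩ h
    rw [Finset.mem_product, Finset.mem_powerset, Finset.mem_powerset] at h
    have h1 : ∀ a ∈ t, a ∈ B := fun a ha => (Finset.mem_inter.mp (h.1 ha)).2
    have h2 : ∀ a ∈ u, a ∉ B := fun a ha => (Finset.mem_sdiff.mp (h.2 ha)).2
    ext a
    · simp only [Finset.mem_inter, Finset.mem_union]
      constructor
      · rintro ⟨h3 | h3, h4⟩
        · exact absurd h4 (h2 a h3)
        · exact h3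
      · intro h3
        exact ⟨Or.inr h3, h1 a h3⟩
    · simp only [Finset.mem_sdiff, Finset.mem_union]
      constructor
      · rintro ⟨h3 | h3, h4⟩
        · exact h3
        · exact absurd (h1 a h3) h4
      · intro h3
        exact ⟨Or.inl h3, h2 a h3⟩
  · intro s _
    ext a
    simp only [Finset.mem_inter, Finset.mem_union, Finset.mem_sdiff]
    tauto
  · rintro ⟨t, u⟩ _
    rfl

/-- sums over subsets factor over disjoint blocks -/
theorem sum_powerset_blocks (B : ℕ → Finset ℕ) (hB : ∀ i j, i ≠ j → Disjoint (B i) (B j))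
    (g : ℕ → ℕ → ℝ) (k : ℕ) : ∀ S : Finset ℕ, (∀ a ∈ S, ∃ j < k, a ∈ B j) →
    ∑ s ∈ S.powerset, ∏ j ∈ range k, g j (s ∩ B j).card =
      ∏ j ∈ range k, ∑ t ∈ (S ∩ B j).powerset, g j t.card := by
  induction k with
  | zero =>
    intro S hS
    have : S = ∅ := by
      rw [Finset.eq_empty_iff_forall_notMem]
      intro a ha
      obtain ⟨j, hj, _⟩ := hS a ha
      omega
    subst this
    simp
  | succ k ih =>
    intro S hS
    rw [sum_powerset_split S (B k), Finset.prod_range_succ]
    have h1 : ∀ t ∈ (S ∩ B k).powerset, ∀ u ∈ (S \ B k).powerset,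
        ∏ j ∈ range (k + 1), g j ((u ∪ t) ∩ B j).card =
          g k t.card * ∏ j ∈ range k, g j (u ∩ B j).card := by
      intro t ht u hu
      rw [Finset.mem_powerset] at ht hu
      rw [Finset.prod_range_succ, mul_comm]
      congr 1
      · congr 2
        ext a
        simp only [Finset.mem_inter, Finset.mem_union]
        constructor
        · rintro ⟨h3 | h3, h4⟩
          · exact absurd h4 (Finset.mem_sdiff.mp (hu h3)).2
          · exact h3
        · intro h3
          exact ⟨Or.inr h3, (Finset.mem_inter.mp (ht h3)).2⟩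
      · apply Finset.prod_congr rfl
        intro j hj
        rw [Finset.mem_range] at hj
        congr 2
        ext a
        simp only [Finset.mem_inter, Finset.mem_union]
        constructor
        · rintro ⟨h3 | h3, h4⟩
          · exact ⟨h3, h4⟩
          · exfalso
            exact Finset.disjoint_left.mp (hB j k (by omega)) h4 (Finset.mem_inter.mp (ht h3)).2
        · rintro ⟨h3, h4⟩
          exact ⟨Or.inl h3, h4⟩
    rw [Finset.sum_congr rfl (fun t ht => Finset.sum_congr rfl (h1 t ht))]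
    simp only [← Finset.mul_sum]
    rw [← Finset.sum_mul]
    rw [ih (S \ B k) (by
      intro a ha
      rw [Finset.mem_sdiff] at ha
      obtain ⟨j, hj, haj⟩ := hS a ha.1
      refine ⟨j, ?_, haj⟩
      rcases Nat.lt_succ_iff_lt_or_eq.mp hj with h | h
      · exact h
      · subst h
        exact absurd haj ha.2)]
    rw [mul_comm]
    congr 1
    apply Finset.prod_congr rfl
    intro j hj
    rw [Finset.mem_range] at hj
    have : (S \ B k) ∩ B j = S ∩ B j := by
      ext a
      simp only [Finset.mem_inter, Finset.mem_sdiff]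
      constructor
      · rintro ⟨⟨h3, _⟩, h5⟩
        exact ⟨h3, h5⟩
      · rintro ⟨h3, h5⟩
        exact ⟨⟨h3, fun h6 => Finset.disjoint_left.mp (hB j k (by omega)) h5 h6⟩, h5⟩
    rw [this]

theorem sum_divisors_sqf {n : ℕ} (hn : 0 < n) (f : ℕ → ℝ) (hf : ∀ d, ¬ Squarefree d → f d = 0) :
    ∑ d ∈ n.divisors, f d = ∑ t ∈ n.primeFactors.powerset, f (∏ p ∈ t, p) := by
  classical
  rw [← Finset.sum_filter_of_ne (p := Squarefree) (fun d _ hd => by
    by_contra h
    exact hd (hf d h))]
  refine Finset.sum_nbij' (fun d => d.primeFactors) (fun t => ∏ p ∈ t, p) ?_ ?_ ?_ ?_ ?_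
  · intro d hd
    rw [Finset.mem_filter, Nat.mem_divisors] at hd
    rw [Finset.mem_powerset]
    exact Nat.primeFactors_mono hd.1.1 hd.1.2
  · intro t ht
    rw [Finset.mem_powerset] at ht
    have hp : ∀ p ∈ t, p.Prime := fun p hp => (Nat.mem_primeFactors.mp (ht hp)).1
    rw [Finset.mem_filter, Nat.mem_divisors]
    refine ⟨⟨?_, hn.ne'⟩, ?_⟩
    · exact (Finset.prod_dvd_prod_of_subset t n.primeFactors (fun p => p) ht).trans
        (Nat.prod_primeFactors_dvd n)
    · rw [Nat.squarefree_iff_prime_squarefree]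
      intro q hq hqq
      have h1 : (∏ p ∈ t, p).primeFactors = t := Nat.primeFactors_prod hp
      have h2 : q ∈ t := by
        rw [← h1]
        refine Nat.mem_primeFactors.mpr ⟨hq, (dvd_mul_left q q).trans hqq, ?_⟩
        exact Finset.prod_ne_zero_iff.mpr fun p hp' => (hp p hp').ne_zero
      rw [← Finset.mul_prod_erase t (fun p => p) h2] at hqq
      have h3 : q ∣ ∏ p ∈ t.erase q, p := Nat.dvd_of_mul_dvd_mul_left hq.pos hqq
      rw [Prime.dvd_finsetProd_iff hq.prime] at h3
      obtain ⟨p, hp', hqp⟩ := h3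
      have h4 := (Nat.prime_dvd_prime_iff_eq hq (hp p (Finset.mem_of_mem_erase hp'))).mp hqp
      exact Finset.ne_of_mem_erase hp' h4.symm
  · intro d hd
    rw [Finset.mem_filter] at hd
    exact Nat.prod_primeFactors_of_squarefree hd.2
  · intro t ht
    rw [Finset.mem_powerset] at ht
    exact Nat.primeFactors_prod fun p hp => (Nat.mem_primeFactors.mp (ht hp)).1
  · intro d hd
    rw [Finset.mem_filter] at hd
    rw [Nat.prod_primeFactors_of_squarefree hd.2]

theorem lamE_sqf (b : ℕ) (w : ℝ) (d : ℕ) (hd : ¬ Squarefree d) : lamE b w d = 0 := by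
  unfold lamE
  rw [ArithmeticFunction.moebius_eq_zero_of_not_squarefree hd]
  simp

theorem mem_union_pb {w : ℝ} (hw : 2 ≤ w) {p : ℕ} (hp : p.Prime) (hpw : (p : ℝ) ≤ w) :
    ∃ j < nb w, p ∈ pb Nat.Prime w j := by
  have h : p ∈ pU Nat.Prime w := (mem_pU (fun _ h => h) (by linarith)).mpr ⟨hp, hpw⟩
  rw [← biUnion_pb (fun _ h => h) hw, Finset.mem_biUnion] at h
  obtain ⟨j, _, hj⟩ := h
  exact ⟨j, j.2, hj⟩

theorem le_of_mem_pb {w : ℝ} (hw : 2 ≤ w) {p j : ℕ} (h : p ∈ pb Nat.Prime w j) :
    (p : ℝ) ≤ zs w j := by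
  rw [mem_pb] at h
  exact (Nat.le_floor_iff (Helper44.zs_pos (by linarith) j).le).mp h.1.2

theorem zs_le {w : ℝ} (hw : 2 ≤ w) (j : ℕ) : zs w j ≤ w := by
  have := Helper44.zs_anti (w := w) (by linarith) (Nat.zero_le j)
  rwa [Helper44.zs_zero] at this

theorem card_eq_sum_pb {w : ℝ} (hw : 2 ≤ w) (t : Finset ℕ)
    (ht : ∀ p ∈ t, p.Prime ∧ (p : ℝ) ≤ w) :
    t = (range (nb w)).biUnion (fun j => t ∩ pb Nat.Prime w j) := by
  ext p
  rw [Finset.mem_biUnion]
  constructor
  · intro hp
    obtain ⟨j, hj, hpj⟩ := mem_union_pb hw (ht p hp).1 (ht p hp).2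
    exact ⟨j, Finset.mem_range.mpr hj, Finset.mem_inter.mpr ⟨hp, hpj⟩⟩
  · rintro ⟨j, _, hj⟩
    exact (Finset.mem_inter.mp hj).1

theorem disj_pb {w : ℝ} (hw : 2 ≤ w) (t : Finset ℕ) :
    ((range (nb w) : Finset ℕ) : Set ℕ).PairwiseDisjoint (fun j => t ∩ pb Nat.Prime w j) := by
  intro i _ j _ hij
  exact Disjoint.mono Finset.inter_subset_right Finset.inter_subset_right
    (pb_disjoint (by linarith) hij)

theorem bet_eq (b : ℕ) {w : ℝ} (hw : 2 ≤ w) {n : ℕ} (hn : 0 < n) :
    bet (lamE b w) n = ∏ j ∈ range (nb w),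
      tr (n.primeFactors ∩ pb Nat.Prime w j) (2 * (b + j)) (fun _ => 1) := by
  classical
  unfold bet
  rw [sum_divisors_sqf hn _ (lamE_sqf b w)]
  set S : Finset ℕ := n.primeFactors.filter (fun p => (p : ℝ) ≤ w) with hS
  have hSsub : S.powerset ⊆ n.primeFactors.powerset :=
    Finset.powerset_mono.mpr (Finset.filter_subset _ _)
  rw [← Finset.sum_subset hSsub]
  · have hterm : ∀ t ∈ S.powerset, lamE b w (∏ p ∈ t, p) =
        ∏ j ∈ range (nb w), (fun (j c : ℕ) => if c ≤ 2 * (b + j) then (-1 : ℝ) ^ c else 0) j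
          (t ∩ pb Nat.Prime w j).card := by
      intro t ht
      rw [Finset.mem_powerset] at ht
      have hp : ∀ p ∈ t, p.Prime := fun p hp =>
        (Nat.mem_primeFactors.mp (Finset.mem_filter.mp (ht hp)).1).1
      have hpw : ∀ p ∈ t, (p : ℝ) ≤ w := fun p hp => (Finset.mem_filter.mp (ht hp)).2
      have hpf : (∏ p ∈ t, p).primeFactors = t := Nat.primeFactors_prod hp
      have hpos : 0 < ∏ p ∈ t, p := Finset.prod_pos fun p h => (hp p h).pos
      have hsm : smooth w (∏ p ∈ t, p) := by
        intro q hq hqd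
        have : q ∈ t := by
          rw [← hpf]
          exact Nat.mem_primeFactors.mpr ⟨hq, hqd, hpos.ne'⟩
        exact hpw q this
      have hsq : Squarefree (∏ p ∈ t, p) := by
        rw [Nat.squarefree_iff_prime_squarefree]
        intro q hq hqq
        have h2 : q ∈ t := by
          rw [← hpf]
          exact Nat.mem_primeFactors.mpr ⟨hq, (dvd_mul_left q q).trans hqq, hpos.ne'⟩
        rw [← Finset.mul_prod_erase t (fun p => p) h2] at hqq
        have h3 : q ∣ ∏ p ∈ t.erase q, p := Nat.dvd_of_mul_dvd_mul_left hq.pos hqq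
        rw [Prime.dvd_finsetProd_iff hq.prime] at h3
        obtain ⟨p, hp', hqp⟩ := h3
        have h4 := (Nat.prime_dvd_prime_iff_eq hq (hp p (Finset.mem_of_mem_erase hp'))).mp hqp
        exact Finset.ne_of_mem_erase hp' h4.symm
      have hmu : (ArithmeticFunction.moebius (∏ p ∈ t, p) : ℝ) = (-1 : ℝ) ^ t.card := by
        rw [ArithmeticFunction.moebius_apply_of_squarefree hsq]
        have : ArithmeticFunction.cardFactors (∏ p ∈ t, p) = t.card := by
          rw [← (ArithmeticFunction.cardDistinctFactors_eq_cardFactors_iff_squarefree hpos.ne').mpr hsq]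
          rw [ArithmeticFunction.cardDistinctFactors_apply, ← List.card_toFinset]
          change (∏ p ∈ t, p).primeFactors.card = t.card
          rw [hpf]
        rw [this]
        push_cast
        rfl
      have hcard : t.card = ∑ j ∈ range (nb w), (t ∩ pb Nat.Prime w j).card := by
        conv_lhs => rw [card_eq_sum_pb hw t (fun p h => ⟨hp p h, hpw p h⟩)]
        exact Finset.card_biUnion (fun i hi j hj hij => disj_pb hw t (by exact_mod_cast hi)
          (by exact_mod_cast hj) hij)
      unfold lamE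
      rw [hpf, hmu, hcard]
      by_cases hall : ∀ j < nb w, (t ∩ pb Nat.Prime w j).card ≤ 2 * (b + j)
      · rw [if_pos ⟨hpos, hsm, hall⟩, ← Finset.prod_pow_eq_pow_sum]
        apply Finset.prod_congr rfl
        intro j hj
        simp only [hall j (Finset.mem_range.mp hj), if_true]
      · rw [if_neg (fun h => hall h.2.2)]
        push Not at hall
        obtain ⟨j, hj, hlt⟩ := hall
        symm
        apply Finset.prod_eq_zero (Finset.mem_range.mpr hj)
        simp only [not_le.mpr hlt, if_false]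
    rw [Finset.sum_congr rfl hterm]
    refine (sum_powerset_blocks (fun j => pb Nat.Prime w j)
      (fun i j hij => pb_disjoint (by linarith) hij)
      (fun (j c : ℕ) => if c ≤ 2 * (b + j) then (-1 : ℝ) ^ c else 0) (nb w) S (by
        intro p hp
        rw [hS, Finset.mem_filter] at hp
        exact mem_union_pb hw (Nat.mem_primeFactors.mp hp.1).1 hp.2)).trans ?_
    apply Finset.prod_congr rfl
    intro j _
    have hinter : S ∩ pb Nat.Prime w j = n.primeFactors ∩ pb Nat.Prime w j := by
      ext p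
      rw [Finset.mem_inter, Finset.mem_inter, hS, Finset.mem_filter]
      constructor
      · rintro ⟨⟨h1, _⟩, h3⟩
        exact ⟨h1, h3⟩
      · rintro ⟨h1, h3⟩
        exact ⟨⟨h1, (le_of_mem_pb hw h3).trans (zs_le hw j)⟩, h3⟩
    rw [hinter]
    unfold tr
    apply Finset.sum_congr rfl
    intro t _
    simp
  · intro t ht ht'
    rw [Finset.mem_powerset] at ht
    have hp : ∀ p ∈ t, p.Prime := fun p hp => (Nat.mem_primeFactors.mp (ht hp)).1
    have hpf : (∏ p ∈ t, p).primeFactors = t := Nat.primeFactors_prod hp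
    unfold lamE
    rw [if_neg]
    rintro ⟨_, hsm, _⟩
    apply ht'
    rw [Finset.mem_powerset]
    intro p hpt
    rw [hS, Finset.mem_filter]
    exact ⟨ht hpt, hsm p (hp p hpt) (Finset.dvd_prod_of_mem (fun p => p) hpt)⟩

theorem tr_nonneg (A : Finset ℕ) (m : ℕ) : 0 ≤ tr A (2 * m) (fun _ => 1) := by
  have h := Helper44.prod_le_tr_even A (fun _ => 1) (fun _ _ => ⟨zero_le_one, le_rfl⟩) (2 * m)
    (even_two_mul m)
  refine le_trans ?_ h
  exact Finset.prod_nonneg fun _ _ => by simp

theorem tr_le (A : Finset ℕ) (m : ℕ) : tr A m (fun _ => 1) ≤ (2 : ℝ) ^ A.card := by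
  unfold tr
  have h1 : ∀ t ∈ A.powerset,
      (if t.card ≤ m then (-1 : ℝ) ^ t.card * ∏ _i ∈ t, (1 : ℝ) else 0) ≤ 1 := by
    intro t _
    split_ifs
    · rw [Finset.prod_const_one, mul_one]
      rcases neg_one_pow_eq_or ℝ t.card with h | h <;> rw [h]
      norm_num
    · norm_num
  refine (Finset.sum_le_sum h1).trans ?_
  rw [Finset.sum_const, Finset.card_powerset]
  simp

theorem tr_zero_of_le (A : Finset ℕ) (m : ℕ) (hA : A.card ≠ 0) (hm : A.card ≤ m) :
    tr A m (fun _ => 1) = 0 := by
  unfold tr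
  have h1 : ∀ t ∈ A.powerset,
      (if t.card ≤ m then (-1 : ℝ) ^ t.card * ∏ _i ∈ t, (1 : ℝ) else 0) = (-1 : ℝ) ^ t.card := by
    intro t ht
    rw [Finset.mem_powerset] at ht
    rw [if_pos ((Finset.card_le_card ht).trans hm), Finset.prod_const_one, mul_one]
  rw [Finset.sum_congr rfl h1]
  have hne : A.Nonempty := Finset.card_ne_zero.mp hA
  have h2 := Finset.sum_powerset_neg_one_pow_card_of_nonempty hne
  have h3 : ((∑ m ∈ A.powerset, (-1 : ℤ) ^ m.card : ℤ) : ℝ) = 0 := by rw [h2]; simp
  push_cast at h3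
  exact h3

/-- N1a -/
theorem lamBasic : LamBasic := by
  intro b w hw
  have hw1 : (1 : ℝ) ≤ w := by linarith
  refine ⟨?_, ?_, ?_, ?_, ?_⟩
  · unfold lamE
    rw [if_pos]
    · simp
    · refine ⟨one_pos, ?_, ?_⟩
      · intro p hp hd
        exact absurd (Nat.dvd_one.mp hd) hp.one_lt.ne'
      · intro j _
        simp
  · intro d
    unfold lamE
    split_ifs
    · have := ArithmeticFunction.abs_moebius_le_one (n := d)
      exact_mod_cast this
    · simp
  · intro d hd
    have hcond : 0 < d ∧ smooth w d ∧ ∀ j < nb w,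
        (d.primeFactors ∩ pb Nat.Prime w j).card ≤ 2 * (b + j) := by
      by_contra h
      apply hd
      unfold lamE
      rw [if_neg h]
    refine ⟨hcond.1, hcond.2.1, ?_⟩
    have hsq : Squarefree d := by
      by_contra h
      exact hd (lamE_sqf b w d h)
    have hmem : ∀ p ∈ d.primeFactors, p.Prime ∧ (p : ℝ) ≤ w := by
      intro p hp
      rw [Nat.mem_primeFactors] at hp
      exact ⟨hp.1, hcond.2.1 p hp.1 hp.2.1⟩
    have h1 : (d : ℝ) = ∏ p ∈ d.primeFactors, (p : ℝ) := by
      conv_lhs => rw [← Nat.prod_primeFactors_of_squarefree hsq]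
      push_cast
      rfl
    have h2 : ∏ p ∈ d.primeFactors, (p : ℝ) =
        ∏ j ∈ range (nb w), ∏ p ∈ d.primeFactors ∩ pb Nat.Prime w j, (p : ℝ) := by
      conv_lhs => rw [card_eq_sum_pb hw _ hmem]
      exact Finset.prod_biUnion (disj_pb hw _)
    have h3 : ∀ j ∈ range (nb w), ∏ p ∈ d.primeFactors ∩ pb Nat.Prime w j, (p : ℝ) ≤
        w ^ ((1 / 2 : ℝ) ^ j * (2 * ((b : ℝ) + j))) := by
      intro j hj
      rw [Finset.mem_range] at hj
      have hz1 : 1 ≤ zs w j := Helper44.one_le_zs hw1 j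
      calc ∏ p ∈ d.primeFactors ∩ pb Nat.Prime w j, (p : ℝ)
          ≤ ∏ _p ∈ d.primeFactors ∩ pb Nat.Prime w j, zs w j := by
            apply Finset.prod_le_prod
            · intro p _
              exact Nat.cast_nonneg p
            · intro p hp
              exact le_of_mem_pb hw (Finset.mem_inter.mp hp).2
        _ = zs w j ^ (d.primeFactors ∩ pb Nat.Prime w j).card := by rw [Finset.prod_const]
        _ ≤ zs w j ^ (2 * (b + j)) := pow_le_pow_right₀ hz1 (hcond.2.2 j hj)
        _ = w ^ ((1 / 2 : ℝ) ^ j * (2 * ((b : ℝ) + j))) := by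
            unfold zs
            rw [← Real.rpow_natCast, ← Real.rpow_mul (by linarith)]
            push_cast
            rfl
    rw [h1, h2]
    refine (Finset.prod_le_prod (fun j _ => Finset.prod_nonneg fun p _ => Nat.cast_nonneg p) h3).trans ?_
    rw [← Real.rpow_sum_of_pos (by linarith)]
    apply Real.rpow_le_rpow_of_exponent_le hw1
    have h4 := Helper44.sum_geo_le (nb w)
    have h5 := Helper44.sum_geo_mul_le (nb w)
    have h6 : ∑ j ∈ range (nb w), (1 / 2 : ℝ) ^ j * (2 * ((b : ℝ) + j)) =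
        2 * b * ∑ j ∈ range (nb w), (1 / 2 : ℝ) ^ j +
          2 * ∑ j ∈ range (nb w), (j : ℝ) * (1 / 2 : ℝ) ^ j := by
      rw [Finset.mul_sum, Finset.mul_sum, ← Finset.sum_add_distrib]
      apply Finset.sum_congr rfl
      intro j _
      ring
    rw [h6]
    have hb : (0 : ℝ) ≤ b := Nat.cast_nonneg b
    push_cast
    nlinarith
  · intro n hn
    rw [bet_eq b hw hn]
    exact Finset.prod_nonneg fun j _ => tr_nonneg _ _
  · intro n hn
    rw [bet_eq b hw hn]
    apply Finset.prod_le_prod
    · intro j _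
      exact tr_nonneg _ _
    · intro j _
      unfold omB
      split_ifs with h1 h2
      · have h3 := tr_le (n.primeFactors ∩ pb Nat.Prime w j) (2 * (b + j))
        rw [h1, pow_zero] at h3
        exact h3
      · exact (tr_zero_of_le _ _ h1 h2).le
      · exact tr_le _ _

end Pool.Agent.Helper85.KSZ
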